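import Pool.Agent.Helper39.Complete

/-!
# MP_d321f7_an, Q1: the log-log integral condition is not necessary for completeness

We disprove Q1 in a strong form.  There are a bounded simply connected domain `Ω` with nonempty
inner boundary (and with `∂Ω` of zero area) and an admissible weight profile `W`, continuous, with
`∫₀ log log (1/W(t)) dt < ∞` (in fact with `∫₀¹ Ψ(1/W(t)) dt < ∞` for an arbitrary nondecreasing
function `Ψ` fixed in advance), such that the polynomials are complete in `L^p_a(Ω, w dx dy)`,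
`w(z) = W(1 - |φ(z)|)`, for every exponent `1 ≤ p < ∞` and every conformal map `φ` of `Ω` onto the
unit disk.
-/

open Set Metric Filter Topology MeasureTheory
open scoped ENNReal

namespace Pool.Agent.Results.MP_d321f7_an.LogLogNotNecessary

/-- `φ` is a conformal map of `Ω` onto the open unit disk. -/
def IsConformalOntoDisk (φ : ℂ → ℂ) (Ω : Set ℂ) : Prop :=
  DifferentiableOn ℂ φ Ω ∧ Set.BijOn φ Ω (Metric.ball 0 1)

/-- The inner boundary of `Ω`: the points of `∂Ω` lying in the interior of the closure of `Ω`. -/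
def innerBoundary (Ω : Set ℂ) : Set ℂ := frontier Ω ∩ interior (closure Ω)

/-- `W : (0,1] → (0,∞)` is bounded and decreases to `0` as `t` decreases to `0`. -/
structure IsProfile (W : ℝ → ℝ) : Prop where
  pos : ∀ t ∈ Set.Ioc (0:ℝ) 1, 0 < W t
  bounded : ∃ C, ∀ t ∈ Set.Ioc (0:ℝ) 1, W t ≤ C
  mono : MonotoneOn W (Set.Ioc (0:ℝ) 1)
  tendsto_zero : Tendsto W (𝓝[>] 0) (𝓝 0)

/-- Convergence of `∫₀ log log (1/W(t)) dt`: for some `t₀ ∈ (0,1]` one has `1/W ≥ e` on `(0,t₀]`
(so that `log log (1/W) ≥ 0` there) and `log log (1/W)` is integrable on `(0,t₀]`. -/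
def LogLogConverges (W : ℝ → ℝ) : Prop :=
  ∃ t₀ ∈ Set.Ioc (0:ℝ) 1, (∀ t ∈ Set.Ioc 0 t₀, Real.exp 1 ≤ 1 / W t) ∧
    IntegrableOn (fun t => Real.log (Real.log (1 / W t))) (Set.Ioc 0 t₀) volume

/-- The measure `w dx dy` on `Ω`, where `w(z) = W(1 - |φ(z)|)`. -/
noncomputable def wMeasure (Ω : Set ℂ) (φ : ℂ → ℂ) (W : ℝ → ℝ) : Measure ℂ :=
  (volume.restrict Ω).withDensity (fun z => ENNReal.ofReal (W (1 - ‖φ z‖)))

/-- `H^p`: the closure of the polynomials in `L^p(μ)`. -/
def Hp (p : ℝ≥0∞) [Fact (1 ≤ p)] (μ : Measure ℂ) : Set (Lp ℂ p μ) :=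
  closure {F : Lp ℂ p μ | ∃ P : Polynomial ℂ, F =ᵐ[μ] fun z => P.eval z}

/-- `L^p_a`: the elements of `L^p(μ)` that are (represented by functions) analytic in `Ω`. -/
def Lpa (Ω : Set ℂ) (p : ℝ≥0∞) (μ : Measure ℂ) : Set (Lp ℂ p μ) :=
  {F : Lp ℂ p μ | ∃ f : ℂ → ℂ, DifferentiableOn ℂ f Ω ∧ F =ᵐ[μ] f}

open Pool.Agent.Helper39

private theorem abs_mono_le {Ψ : ℝ → ℝ} (hΨ : Monotone Ψ) {a b x : ℝ} (h1 : a ≤ x) (h2 : x ≤ b) :
    |Ψ x| ≤ |Ψ b| + |Ψ a| := by
  have h3 := hΨ h1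
  have h4 := hΨ h2
  rw [abs_le]
  constructor
  · linarith [neg_abs_le (Ψ a), abs_nonneg (Ψ b)]
  · linarith [le_abs_self (Ψ b), abs_nonneg (Ψ a)]

private theorem summable_aux {Θ : ℝ → ℝ} {s : ℕ → St} (hs : ∀ n, Step Θ n (s n) (s (n + 1)))
    (hv : ∀ n, (s n).Valid) : Summable (fun m => (s m).t * |(fun n => Θ (s n).W) m|) := by
  rw [← summable_nat_add_iff 1]
  refine Summable.of_nonneg_of_le (fun m => mul_nonneg (hv _).tpos.le (abs_nonneg _))
    (fun m => (hs m).integ) ?_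
  exact summable_geometric_of_lt_one (by norm_num) (by norm_num)

/-- Completeness for the constructed data. -/
private theorem complete {Θ : ℝ → ℝ} {s : ℕ → St} (h0 : s 0 = st0) (hv : ∀ n, (s n).Valid)
    (hs : ∀ n, Step Θ n (s n) (s (n + 1))) {φ : ℂ → ℂ} (hφ : IsConformalOntoDisk φ (fdom s))
    (p : ℝ≥0∞) [hp : Fact (1 ≤ p)] (hpt : p ≠ ∞) :
    Hp p (wMeasure (fdom s) φ (fW s)) = Lpa (fdom s) p (wMeasure (fdom s) φ (fW s)) := by
  obtain ⟨hφd, hφb⟩ := hφ
  have hp0 : p ≠ 0 := by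
    intro h
    have := hp.out
    rw [h] at this
    simp at this
  have hpr : 0 < p.toReal := ENNReal.toReal_pos hp0 hpt
  set U := fdom s with hU
  have hUo : IsOpen U := fdom_open hv
  have hUb : Bornology.IsBounded U := isBounded_ball.subset (fdom_subset_ball hv)
  set w : ℂ → ℝ≥0∞ := fun z => dweight (fW s) (φ z) with hw
  set μ : Measure ℂ := wMeasure U φ (fW s) with hμ
  have hμw : μ = wmeas U w := rfl
  have hprof := fW_profile h0 hv hs
  have hw1 : ∀ z ∈ U, w z ≤ 1 := by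
    intro z hz
    have h1 := (stairs_of h0 hv hs).fn_le_one (one_sub_norm_mem (hφb.mapsTo hz)).2
    exact ENNReal.ofReal_le_one.2 h1
  have hfin : wmeas U w univ ≠ ∞ := (wmeas_univ_lt_top hUo hUb ENNReal.one_ne_top hw1).ne
  have hwm : AEMeasurable w (volume.restrict U) := hprof.aemeasurable hUo hφd hφb.mapsTo
  have : IsFiniteMeasure μ := ⟨by rw [hμw]; exact hfin.lt_top⟩
  have hlow : ∀ z₀ ∈ U, ∃ r : ℝ, 0 < r ∧ ball z₀ (2 * r) ⊆ U ∧ ∃ c : ℝ≥0∞, c ≠ 0 ∧ c ≠ ∞ ∧
      ∀ z ∈ ball z₀ (2 * r), c ≤ w z := by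
    intro z₀ hz₀
    obtain ⟨ρ, hρ, hρU⟩ := Metric.isOpen_iff.1 hUo z₀ hz₀
    have hsub : closedBall z₀ (ρ / 2) ⊆ U := (closedBall_subset_ball (by linarith)).trans hρU
    obtain ⟨x, hx, hxmax⟩ := (isCompact_closedBall z₀ (ρ / 2)).exists_isMaxOn
      ⟨z₀, mem_closedBall_self (by positivity)⟩ (hφd.continuousOn.mono hsub).norm
    have hx1 := one_sub_norm_mem (hφb.mapsTo (hsub hx))
    have h2 : 2 * (ρ / 4) = ρ / 2 := by ring
    refine ⟨ρ / 4, by positivity, ?_, ENNReal.ofReal (fW s (1 - ‖φ x‖)), ?_, ENNReal.ofReal_ne_top, ?_⟩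
    · rw [h2]; exact ball_subset_closedBall.trans hsub
    · have := hprof.pos _ hx1
      simpa using this
    · intro z hz
      rw [h2] at hz
      have hz' := ball_subset_closedBall hz
      apply ENNReal.ofReal_le_ofReal
      refine hprof.mono hx1 (one_sub_norm_mem (hφb.mapsTo (hsub hz'))) ?_
      have : ‖φ z‖ ≤ ‖φ x‖ := hxmax hz'
      linarith
  ext F
  constructor
  · intro hF
    have hF' : F ∈ closure {F : Lp ℂ p μ | ∃ P : Polynomial ℂ, F =ᵐ[μ] fun z => P.eval z} := hF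
    rw [EMetric.mem_closure_iff] at hF'
    refine analytic_of_mem_closure hUo hwm hfin hlow hp.out (Lp.aestronglyMeasurable F) ?_
    intro ε hε
    obtain ⟨G, ⟨P, hGP⟩, hFG⟩ := hF' ε (pos_iff_ne_zero.2 hε)
    refine ⟨P, ?_⟩
    rw [Lp.edist_def] at hFG
    refine lt_of_le_of_lt (le_of_eq ?_) hFG
    apply eLpNorm_congr_ae
    filter_upwards [hGP] with z hz
    simp only [Pi.sub_apply, hz]
  · rintro ⟨f, hfd, hFf⟩
    have hfin2 : ∫⁻ z in U, w z * ‖f z‖ₑ ^ p.toReal ≠ ∞ := by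
      rw [← lintegral_wmeas hwm ((aemeasurable_of_diff hUo hfd).enorm.pow_const _)]
      have h1 : eLpNorm f p (wmeas U w) < ∞ := by
        rw [← hμw, ← eLpNorm_congr_ae hFf]
        exact Lp.eLpNorm_lt_top F
      exact (lintegral_rpow_enorm_lt_top_of_eLpNorm_lt_top hp0 hpt h1).ne
    have happ := appr_all h0 hv hs hφd hφb hp.out hpt hfd hfin2
    show F ∈ closure {F : Lp ℂ p μ | ∃ P : Polynomial ℂ, F =ᵐ[μ] fun z => P.eval z}
    rw [EMetric.mem_closure_iff]
    intro ε hε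
    obtain ⟨P, hP⟩ := happ ε hε.ne'
    obtain ⟨B, hB⟩ := (isCompact_closedBall (0:ℂ) 1).exists_bound_of_continuousOn
      P.continuous.continuousOn
    have hPmem : MemLp (fun z : ℂ => P.eval z) p μ := by
      refine MemLp.of_bound P.continuous.aestronglyMeasurable B ?_
      have h1 : ∀ᵐ z ∂μ, z ∈ U := (wmeas_ac U w).ae_le (ae_restrict_mem hUo.measurableSet)
      filter_upwards [h1] with z hz
      exact hB z (ball_subset_closedBall (fdom_subset_ball hv hz))
    refine ⟨hPmem.toLp _, ⟨P, hPmem.coeFn_toLp⟩, ?_⟩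
    rw [Lp.edist_def]
    refine lt_of_le_of_lt (le_of_eq ?_) hP
    apply eLpNorm_congr_ae
    filter_upwards [hFf, hPmem.coeFn_toLp] with z hz1 hz2
    simp only [Pi.sub_apply, hz1, hz2]

/-- **Q1 is false.** -/
theorem result (Ψ : ℝ → ℝ) (hΨ : Monotone Ψ) :
    ∃ (Ω : Set ℂ) (W : ℝ → ℝ),
      IsOpen Ω ∧ Bornology.IsBounded Ω ∧ IsSimplyConnected Ω ∧
      (innerBoundary Ω).Nonempty ∧ volume (frontier Ω) = 0 ∧
      IsProfile W ∧ Continuous W ∧ LogLogConverges W ∧
      IntegrableOn (fun t => Ψ (1 / W t)) (Set.Ioc 0 1) volume ∧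
      (∃ φ, IsConformalOntoDisk φ Ω) ∧
      ∀ φ, IsConformalOntoDisk φ Ω → ∀ (p : ℝ≥0∞) [Fact (1 ≤ p)], p ≠ ∞ →
        Hp p (wMeasure Ω φ W) = Lpa Ω p (wMeasure Ω φ W) := by
  set Θ : ℝ → ℝ := fun x => |Ψ (1 / x)| + |Ψ 1| + |Real.log (Real.log (1 / x))| with hΘ
  have hΘnn : ∀ x, 0 ≤ Θ x := fun x => by positivity
  obtain ⟨s, h0, hv, hs⟩ := exists_seq Θ
  have hst := stairs_of h0 hv hs
  have hsum := summable_aux hs hv
  have hprof := fW_profile h0 hv hs
  have hcont : Continuous (fW s) := hst.fn_continuous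
  have hUo := fdom_open hv
  have hUb : Bornology.IsBounded (fdom s) := isBounded_ball.subset (fdom_subset_ball hv)
  have hUs := fdom_simplyConnected hv
  refine ⟨fdom s, fW s, hUo, hUb, hUs, inner_nonempty h0 hv hs, volume_frontier hv hs,
    ⟨hprof.pos, hprof.bdd, hprof.mono, hst.fn_tendsto⟩, hcont, ?_, ?_, ?_, ?_⟩
  · -- the log-log integral
    have ht2 : (s 2).t ≤ 1 := by
      have := hst.t_le 2
      norm_num at this
      linarith
    have hW2 : (s 2).W ≤ 1 / 4 := by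
      have := hst.W_le 2
      norm_num at this
      linarith
    have hsmall : ∀ t ∈ Set.Ioc 0 (s 2).t, fW s t ≤ 1 / 4 := fun t ht =>
      (hst.fn_le (m := 2) ht.2).trans hW2
    have hbig : ∀ t ∈ Set.Ioc 0 (s 2).t, 4 ≤ 1 / fW s t := by
      intro t ht
      have h1 := hsmall t ht
      have h2 := hprof.pos t ⟨ht.1, ht.2.trans ht2⟩
      rw [le_div_iff₀ h2]
      linarith
    have hlog4 : 1 ≤ Real.log 4 := by
      rw [Real.le_log_iff_exp_le (by norm_num)]
      linarith [Real.exp_one_lt_d9]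
    refine ⟨(s 2).t, ⟨(hv 2).tpos, ht2⟩, fun t ht => ?_, ?_⟩
    · have := hbig t ht
      linarith [Real.exp_one_lt_d9]
    · refine hst.integrableOn ht2 ?_ (B := fun m => Θ (s m).W) ?_ hsum
      · exact (Real.measurable_log.comp (Real.measurable_log.comp
          (measurable_const.div hcont.measurable))).aestronglyMeasurable
      · intro m x hx hx1 _
        have h1 := hbig x hx
        have h2 : (s m).W ≤ fW s x := hst.le_fn hx1.le
        have h3 : 1 / fW s x ≤ 1 / (s m).W := one_div_le_one_div_of_le (hv m).Wpos h2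
        have h4 : Real.log 4 ≤ Real.log (1 / fW s x) := Real.log_le_log (by norm_num) h1
        have h5 : Real.log (1 / fW s x) ≤ Real.log (1 / (s m).W) :=
          Real.log_le_log (by linarith) h3
        have h6 : 0 ≤ Real.log (Real.log (1 / fW s x)) := Real.log_nonneg (by linarith)
        have h7 : Real.log (Real.log (1 / fW s x)) ≤ Real.log (Real.log (1 / (s m).W)) :=
          Real.log_le_log (by linarith) h5
        rw [abs_of_nonneg h6]
        have h8 := le_abs_self (Real.log (Real.log (1 / (s m).W)))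
        simp only [hΘ]
        linarith [abs_nonneg (Ψ (1 / (s m).W)), abs_nonneg (Ψ 1)]
  · -- the general integral
    refine hst.integrableOn le_rfl ?_ (B := fun m => Θ (s m).W) ?_ hsum
    · exact (hΨ.measurable.comp (measurable_const.div hcont.measurable)).aestronglyMeasurable
    · intro m x hx hx1 _
      have h2 : (s m).W ≤ fW s x := hst.le_fn hx1.le
      have h2' := hprof.pos x hx
      have h3 : 1 / fW s x ≤ 1 / (s m).W := one_div_le_one_div_of_le (hv m).Wpos h2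
      have h4 : 1 ≤ 1 / fW s x := by
        rw [le_div_iff₀ h2', one_mul]
        exact hst.fn_le_one hx.2
      have h5 := abs_mono_le hΨ h4 h3
      simp only [hΘ]
      linarith [abs_nonneg (Real.log (Real.log (1 / (s m).W)))]
  · obtain ⟨φ, hφ⟩ := exists_rmap hUo hUs (zero_mem_fdom hv) hUb
    exact ⟨φ, hφ.diff, hφ.bij⟩
  · intro φ hφ p hp hpt
    exact complete h0 hv hs hφ p hpt

end Pool.Agent.Results.MP_d321f7_an.LogLogNotNecessary
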